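import Pool.Agent.Q14.GN.AvB

/-!
# Project GN (helper155), job GN-AV: the average order of the kernel in natural order
-/

set_option autoImplicit false
set_option linter.unusedVariables false

open scoped Classical

namespace Pool.Agent.Q14.GN.Av

open Finset
open H385 (ZI nrm)
open Pool.Agent.Y699 (PS SB Ph mem_SB lg lg_pos hi lo n1 d1 HL lg_le_log nrm_one mul_eq_one)
open Pool.Agent.H304R2.EC.A1 (prim prim_one prim_ne_zero)
open Q155.GN (KN S_AV)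

theorem lo_cases (Z : ℕ) (x : ZI) : lo Z x = 0 ∨ lo Z x = 1 := by
  unfold lo
  split_ifs <;> simp

theorem hi_eq (Z : ℕ) (x : ZI) : hi Z x = 1 - lo Z x := by
  unfold hi lo
  by_cases h : nrm x ≤ Z
  · rw [if_neg (by omega), if_pos h]; norm_num
  · rw [if_pos (by omega), if_neg h]; norm_num

/-- the main part with two small variables -/
theorem lo_split {Z : ℕ} (hZ : 1 ≤ Z) {a b : ZI} (ha : PS a) (hb : PS b) :
    lo Z a * lo Z b = d1 a * d1 b + lo Z a * lo Z b * n1 (a * b) := by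
  have l1 : lo Z 1 = 1 := by unfold lo; rw [nrm_one, if_pos hZ]
  by_cases h : a * b = 1
  · obtain ⟨h1, h2⟩ := (mul_eq_one ha.prm hb.prm).1 h
    rw [h1, h2, l1]
    unfold d1 n1
    norm_num
  · have e1 : n1 (a * b) = 1 := by unfold n1; rw [if_neg h]
    have e2 : d1 a * d1 b = 0 := by
      unfold d1
      by_cases h1 : a = 1
      · rw [if_pos h1, if_neg (fun h2 => h ((mul_eq_one ha.prm hb.prm).2 ⟨h1, h2⟩)), mul_zero]
      · rw [if_neg h1, zero_mul]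
    rw [e1, e2]
    ring

theorem abs_one_lo (Z : ℕ) (x : ZI) : |1 - lo Z x| ≤ 1 := by
  rcases lo_cases Z x with h | h <;> rw [h] <;> norm_num

/-- the average with parameters -/
theorem average_aux : ∃ C : ℝ, 1 ≤ C ∧ ∀ (X Z : ℕ), 1 ≤ X → 1 ≤ Z → HL 1 X Z 2 →
    |T4 X (fun _ _ _ _ => 1) - 4 * ∑ n ∈ SB X, Ph X n| ≤
      C * (X * lg X ^ 3) * (Z : ℝ) ^ (-(1 / 96) : ℝ) + 8 * EH X Z := by
  obtain ⟨C, hC1, hC⟩ := regA
  refine ⟨2 * C, by linarith, ?_⟩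
  intro X Z hX hZ hL
  -- linked large variables
  have a1 := hC X Z hZ (fun _ _ => 1) (fun _ _ => by norm_num)
  have a2 := hC X Z hZ (fun b c => 1 - hi Z b * hi Z c) (fun b c => by
    rw [hi_eq, hi_eq]
    rcases lo_cases Z b with h | h <;> rcases lo_cases Z c with h' | h' <;> rw [h, h'] <;> norm_num)
  rw [T4_pr] at a2
  -- two small variables
  have c1 := regC hL hZ
  have c2 := c1
  rw [T4_ex] at c2
  have c3 := c1
  rw [T4_bc] at c3
  have c4 := c2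
  rw [T4_bc] at c4
  -- the main terms
  have m1 := main_eq (X := X) hX
  have m2 := m1
  rw [T4_ex] at m2
  have m3 := m1
  rw [T4_bc] at m3
  have m4 := m2
  rw [T4_bc] at m4
  -- three small variables
  have d1' := regD hL hZ (κ := fun _ _ _ _ => (-1 : ℝ)) (fun _ _ _ _ => by norm_num)
  have d2' := d1'
  rw [T4_ex] at d2'
  have d3' := d1'
  rw [T4_pr] at d3'
  have d4' := regD hL hZ (κ := fun a b c e => -(1 - lo Z e)) (fun a b c e => by
    rw [abs_neg]; exact abs_one_lo Z e)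
  rw [T4_ex, T4_pr] at d4'
  have key : T4 X (fun _ _ _ _ => 1) = T4 X (fun a b c e =>
      (hi Z a * hi Z e * 1) + ((hi Z b * hi Z c * (1 - hi Z a * hi Z e)) +
      ((d1 a * d1 b) + ((d1 e * d1 b) + ((d1 a * d1 c) + ((d1 e * d1 c) +
      ((lo Z a * lo Z b * n1 (a * b)) + ((lo Z e * lo Z b * n1 (e * b)) +
      ((lo Z a * lo Z c * n1 (a * c)) + ((lo Z e * lo Z c * n1 (e * c)) +
      ((lo Z a * lo Z b * lo Z c * (-1)) + ((lo Z e * lo Z b * lo Z c * (-1)) +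
      ((lo Z b * lo Z a * lo Z e * (-1)) + (lo Z c * lo Z a * lo Z e * (-(1 - lo Z b)))))))))))))))) := by
    refine T4_congr fun a ha b hb c hc e he => ?_
    rw [mem_SB] at ha hb hc he
    have s1 := lo_split hZ ha.2 hb.2
    have s2 := lo_split hZ he.2 hb.2
    have s3 := lo_split hZ ha.2 hc.2
    have s4 := lo_split hZ he.2 hc.2
    rw [hi_eq, hi_eq, hi_eq, hi_eq]
    linear_combination s1 + s2 + s3 + s4
  rw [T4_add, T4_add, T4_add, T4_add, T4_add, T4_add, T4_add, T4_add, T4_add, T4_add, T4_add, T4_add, T4_add] at key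
  rw [m1, m2, m3, m4] at key
  beta_reduce at a1 a2 c1 c2 c3 c4 d1' d2' d3' d4' key
  rw [key]
  have a1' := abs_le.1 a1
  have a2' := abs_le.1 a2
  have c1' := abs_le.1 c1
  have c2' := abs_le.1 c2
  have c3' := abs_le.1 c3
  have c4' := abs_le.1 c4
  have d1'' := abs_le.1 d1'
  have d2'' := abs_le.1 d2'
  have d3'' := abs_le.1 d3'
  have d4'' := abs_le.1 d4'
  rw [abs_le]
  constructor
  · linarith [a1'.1, a2'.1, c1'.1, c2'.1, c3'.1, c4'.1, d1''.1, d2''.1, d3''.1, d4''.1]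
  · linarith [a1'.2, a2'.2, c1'.2, c2'.2, c3'.2, c4'.2, d1''.2, d2''.2, d3''.2, d4''.2]

/-- the condition on the size of the parameters -/
theorem hl_of {X Z : ℕ} (hX : 1 ≤ X) (h : Z ^ 6 ≤ X) : HL 1 X Z 2 := by
  intro r hr hn
  rw [one_pow, one_pow, mul_one] at hn
  have hr0 : 0 < nrm r := Pool.Agent.Y699.nrm_pos' (prim_ne_zero hr)
  set T := X / nrm r with hT
  set l := Nat.log 2 T with hl
  have h1 : T < 2 ^ (l + 1) := Nat.lt_pow_succ_log_self (by norm_num) T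
  have h2 : X < nrm r * (T + 1) := by
    rw [hT]
    exact Nat.lt_mul_div_succ X hr0
  have h3 : X < Z ^ 3 * 2 ^ (l + 1) :=
    h2.trans_le (Nat.mul_le_mul hn h1)
  have h4 : X < 2 ^ (2 * (l + 1)) := by
    have h5 : X * X < (Z ^ 3 * 2 ^ (l + 1)) * (Z ^ 3 * 2 ^ (l + 1)) :=
      Nat.mul_lt_mul'' h3 h3
    have h6 : (Z ^ 3 * 2 ^ (l + 1)) * (Z ^ 3 * 2 ^ (l + 1)) = Z ^ 6 * 2 ^ (2 * (l + 1)) := by ring
    rw [h6] at h5
    have h7 : X * X < X * 2 ^ (2 * (l + 1)) := h5.trans_le (Nat.mul_le_mul_right _ h)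
    exact lt_of_mul_lt_mul_left h7 (Nat.zero_le _)
  have h5 : Nat.log 2 X < 2 * (l + 1) := Nat.log_lt_of_lt_pow (by omega) h4
  unfold lg
  have h6 : ((Nat.log 2 X : ℕ) : ℝ) + 1 ≤ 2 * ((l : ℝ) + 1) := by
    have : Nat.log 2 X + 1 ≤ 2 * (l + 1) := h5
    exact_mod_cast this
  exact h6

theorem lg_pow (L k : ℕ) (hk : 1 ≤ k) (hL : 1 ≤ L) : lg (L ^ k) ≤ k * lg L := by
  unfold lg
  have h1 : L < 2 ^ (Nat.log 2 L + 1) := Nat.lt_pow_succ_log_self (by norm_num) L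
  have h2 : L ^ k < 2 ^ (k * (Nat.log 2 L + 1)) := by
    rw [mul_comm, pow_mul]
    exact Nat.pow_lt_pow_left h1 (by omega)
  have h3 : Nat.log 2 (L ^ k) < k * (Nat.log 2 L + 1) := by
    refine Nat.log_lt_of_lt_pow ?_ h2
    exact (Nat.pow_pos (by omega)).ne'
  exact_mod_cast h3

theorem ev_log : ∀ ε : ℝ, 0 < ε → ∃ L0 : ℕ, ∀ L : ℕ, L0 ≤ L →
    Real.log L ^ 3 * (L : ℝ) ^ (-(1 / 2) : ℝ) ≤ ε := by
  intro ε hε
  have h1 := (isLittleO_log_rpow_rpow_atTop (3 : ℝ) (show (0 : ℝ) < 1 / 2 by norm_num)).bound hε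
  have h2 := tendsto_natCast_atTop_atTop (R := ℝ) |>.eventually h1
  obtain ⟨L0, hL0⟩ := Filter.eventually_atTop.1 h2
  refine ⟨max L0 1, fun L hL => ?_⟩
  have h3 := hL0 L ((le_max_left _ _).trans hL)
  have hL1 : (1 : ℝ) ≤ L := by exact_mod_cast (le_max_right _ _).trans hL
  have hlog : 0 ≤ Real.log L := Real.log_nonneg hL1
  have h4 : (0 : ℝ) < (L : ℝ) ^ (1 / 2 : ℝ) := Real.rpow_pos_of_pos (by linarith) _
  rw [Real.norm_of_nonneg (by positivity), Real.norm_of_nonneg h4.le] at h3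
  rw [Real.rpow_neg (by linarith), ← div_eq_mul_inv, div_le_iff₀ h4]
  refine le_trans (le_of_eq ?_) h3
  rw [← Real.rpow_natCast]
  norm_num

theorem ev_pow (k : ℕ) : ∃ L0 : ℕ, ∀ L : ℕ, L0 ≤ L → L ^ k ≤ 2 ^ (L - 1) := by
  have h1 := tendsto_pow_const_div_const_pow_of_one_lt k (show (1 : ℝ) < 2 by norm_num)
  have h2 := h1.eventually (ge_mem_nhds (show (0 : ℝ) < 1 / 2 by norm_num))
  obtain ⟨L0, hL0⟩ := Filter.eventually_atTop.1 h2
  refine ⟨max L0 1, fun L hL => ?_⟩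
  have h3 := hL0 L ((le_max_left _ _).trans hL)
  have hL1 : 1 ≤ L := (le_max_right _ _).trans hL
  rw [div_le_iff₀ (by positivity)] at h3
  obtain ⟨m, rfl⟩ := Nat.exists_eq_add_of_le hL1
  have h4 : (1 / 2 : ℝ) * 2 ^ (1 + m) = 2 ^ m := by rw [pow_add]; ring
  rw [h4] at h3
  have h5 : 1 + m - 1 = m := by omega
  rw [h5]
  exact_mod_cast h3

/-- **the average** -/
theorem average : ∀ ε : ℝ, 0 < ε → ∃ X0 : ℕ, ∀ X : ℕ, X0 ≤ X →
    |T4 X (fun _ _ _ _ => 1) - 4 * ∑ n ∈ SB X, Ph X n| ≤ ε * X := by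
  obtain ⟨C, hC1, hC⟩ := average_aux
  intro ε hε
  obtain ⟨k, hk, hk1⟩ : ∃ k : ℕ, (k : ℝ) = 384 ∧ 1 ≤ k := ⟨384, by norm_num, by norm_num⟩
  obtain ⟨κ, hκ⟩ : ∃ κ : ℝ, κ = 8 * ((1680 * 2 * (18 : ℝ) ^ 3) * Real.sqrt 2) * ((k : ℝ) * 3) ^ 3 :=
    ⟨_, rfl⟩
  have hs2 : 0 < Real.sqrt 2 := Real.sqrt_pos.2 (by norm_num)
  have hκ0 : 0 < κ := by
    rw [hκ, hk]
    positivity
  obtain ⟨L1, hL1⟩ := ev_log (ε / (2 * κ)) (by positivity)
  obtain ⟨L2, hL2⟩ := ev_pow (k * 6)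
  obtain ⟨L3, hL3⟩ := exists_nat_ge (2 * C / ε)
  refine ⟨2 ^ (L1 + L2 + L3 + 2), fun X hX => ?_⟩
  set m := Nat.log 2 X with hm
  have hX0 : X ≠ 0 := by
    have : 0 < 2 ^ (L1 + L2 + L3 + 2) := by positivity
    omega
  have hmL : L1 + L2 + L3 + 2 ≤ m := (Nat.le_log_iff_pow_le (by norm_num) hX0).2 hX
  obtain ⟨L, hL⟩ : ∃ L : ℕ, L = m + 1 := ⟨_, rfl⟩
  have hlgX : lg X = L := by
    unfold lg
    rw [hL]
    push_cast
    rfl
  have hLpos : (0 : ℝ) < L := by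
    rw [hL]; positivity
  have hL2' : 2 ≤ L := by omega
  obtain ⟨Z, hZ⟩ : ∃ Z : ℕ, Z = L ^ k := ⟨_, rfl⟩
  have hZ1 : 1 ≤ Z := by rw [hZ]; exact Nat.one_le_pow _ _ (by omega)
  have hZX : Z ^ 6 ≤ X := by
    rw [hZ, ← pow_mul]
    refine (hL2 L (by omega)).trans ?_
    rw [hL, Nat.add_sub_cancel]
    exact Nat.pow_log_le_self 2 hX0
  refine (hC X Z (by omega) hZ1 (hl_of (by omega) hZX)).trans ?_
  have hZr : (Z : ℝ) ^ (-(1 / 96) : ℝ) = (L : ℝ) ^ (-4 : ℝ) := by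
    rw [hZ]
    push_cast
    rw [← Real.rpow_natCast (L : ℝ) k, ← Real.rpow_mul hLpos.le, hk]
    norm_num
  have e1 : (X : ℝ) * lg X ^ 3 * (Z : ℝ) ^ (-(1 / 96) : ℝ) = X * (1 / L) := by
    rw [hlgX, hZr, mul_assoc, ← Real.rpow_natCast (L : ℝ) 3, ← Real.rpow_add hLpos]
    congr 1
    rw [one_div, ← Real.rpow_neg_one]
    norm_num
  have e2 : C * ((X : ℝ) * (1 / L)) ≤ ε / 2 * X := by
    have h1 : C * (1 / L) ≤ ε / 2 := by
      rw [mul_one_div, div_le_iff₀ hLpos]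
      have h2 : 2 * C / ε ≤ L := by
        refine hL3.trans ?_
        have : L3 ≤ L := by omega
        exact_mod_cast this
      rw [div_le_iff₀ hε] at h2
      linarith
    have h3 : (0 : ℝ) ≤ X := Nat.cast_nonneg _
    nlinarith
  have e3 : 8 * EH X Z ≤ κ * X * (Real.log L ^ 3 * (L : ℝ) ^ (-(1 / 2) : ℝ)) := by
    have h1 : lg Z ≤ k * (3 * Real.log L) := by
      rw [hZ]
      refine (lg_pow L k hk1 (by omega)).trans ?_
      exact mul_le_mul_of_nonneg_left (lg_le_log hL2') (Nat.cast_nonneg _)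
    have h0 := lg_pos Z
    have h2 : lg Z ^ 3 ≤ (k * (3 * Real.log L)) ^ 3 := pow_le_pow_left₀ h0.le h1 3
    have h4 : Real.sqrt (L : ℝ) = (L : ℝ) ^ (1 / 2 : ℝ) := Real.sqrt_eq_rpow _
    unfold EH
    rw [hlgX, h4, div_eq_mul_inv, ← Real.rpow_neg hLpos.le]
    have h3 : (0 : ℝ) ≤ (L : ℝ) ^ (-(1 / 2) : ℝ) := by positivity
    calc 8 * ((1680 * 2 * (18 : ℝ) ^ 3) * Real.sqrt 2 * (X * lg Z ^ 3 * (L : ℝ) ^ (-(1 / 2) : ℝ))) ≤
          8 * ((1680 * 2 * (18 : ℝ) ^ 3) * Real.sqrt 2 *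
            (X * (k * (3 * Real.log L)) ^ 3 * (L : ℝ) ^ (-(1 / 2) : ℝ))) := by gcongr
      _ = _ := by rw [hκ]; ring
  have e4 : 8 * EH X Z ≤ ε / 2 * X := by
    have h1 := hL1 L (by omega)
    have h2 : (0 : ℝ) ≤ X := Nat.cast_nonneg _
    refine e3.trans ?_
    calc κ * X * (Real.log L ^ 3 * (L : ℝ) ^ (-(1 / 2) : ℝ))
        ≤ κ * X * (ε / (2 * κ)) := mul_le_mul_of_nonneg_left h1 (by positivity)
      _ = ε / 2 * X := by
          field_simp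
  have e5 : C * ((X : ℝ) * lg X ^ 3) * (Z : ℝ) ^ (-(1 / 96) : ℝ) = C * (X * (1 / L)) := by
    rw [← e1]; ring
  rw [e5]
  linarith

/-- **JOB GN-AV** -/
theorem av : S_AV := by
  intro ε hε
  obtain ⟨X0, hX0⟩ := average ε hε
  refine ⟨X0, fun X hX => ?_⟩
  have h := hX0 X hX
  have h1 : T4 X (fun _ _ _ _ => 1) = ∑ m ∈ SB X, Ph X m * (KN m : ℝ) := by
    rw [K_sum Sym.symP X]
    unfold T4 S4
    refine sum_congr rfl fun a _ => sum_congr rfl fun b _ => sum_congr rfl fun c _ =>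
      sum_congr rfl fun e _ => ?_
    unfold F4 G2
    rw [one_mul]
  have h2 : ∀ f : ZI → ℝ, ∑ n ∈ (SB X).filter (fun n => n.norm % 8 = 5), f n =
      ∑ n ∈ SB X, Ph X n * f n := by
    intro f
    rw [sum_filter]
    refine sum_congr rfl fun n hn => ?_
    rw [mem_SB] at hn
    unfold Ph
    by_cases h3 : n.norm % 8 = 5
    · rw [if_pos h3, if_pos ⟨hn.2, hn.1, h3⟩, one_mul]
    · rw [if_neg h3, if_neg (fun h' => h3 h'.2.2), zero_mul]
  have h3 : ((((SB X).filter (fun n => n.norm % 8 = 5)).card : ℕ) : ℝ) = ∑ n ∈ SB X, Ph X n := by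
    have h4 := h2 (fun _ => 1)
    simp only [mul_one, sum_const, nsmul_eq_mul] at h4
    exact h4
  rw [h3, h2 (fun n => (KN n : ℝ)), ← h1]
  exact h

end Pool.Agent.Q14.GN.Av
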