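import Pool.Agent.Q155.GN.Stm2

/-!
# Project GN (helper155), job GN-GOOD: the criterion in terms of the corank
-/

set_option autoImplicit false
set_option linter.unusedVariables false

open scoped Classical

namespace Pool.Agent.Q14.GN.Gd

open Finset
open H385 (ZI nrm)
open Pool.Agent.Y699 (PP PS PD qr PS_prod mem_PD Good Good4 PD_mul PD_one)
open Pool.Agent.H304R2.EC.A1 (prim)
open Q155.GN (s fc SymP Kl mem_Kl bb S_GOOD)

/-- the indicator of a set -/
noncomputable def chi (T : Finset ZI) (π : ZI) : ZMod 2 := if π ∈ T then 1 else 0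

theorem chi_of {T : Finset ZI} {π : ZI} (h : π ∈ T) : chi T π = 1 := if_pos h
theorem chi_not {T : Finset ZI} {π : ZI} (h : π ∉ T) : chi T π = 0 := if_neg h

theorem fin_Kl (S : Finset ZI) : Module.Finite (ZMod 2) (Kl S) := by
  let f : Kl S →ₗ[ZMod 2] (↥S → ZMod 2) :=
    { toFun := fun x π => x.1 π.1
      map_add' := fun _ _ => rfl
      map_smul' := fun _ _ => rfl }
  refine Module.Finite.of_injective f ?_
  intro x y h
  apply Subtype.ext
  funext π
  by_cases hπ : π ∈ S
  · exact congrFun h ⟨π, hπ⟩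
  · rw [(mem_Kl.1 x.2).1 π hπ, (mem_Kl.1 y.2).1 π hπ]

/-- the equations for an indicator -/
theorem chi_mem {S T : Finset ZI} (hT : T ⊆ S) : chi T ∈ Kl S ↔
    (∀ π ∈ T, ∑ ρ ∈ S \ T, s π ρ = 0) ∧ ∀ π ∈ S \ T, ∑ ρ ∈ T, s π ρ = 0 := by
  rw [mem_Kl]
  have h1 : ∀ π ∈ T, ∑ ρ ∈ S, s π ρ * (chi T ρ + chi T π) = ∑ ρ ∈ S \ T, s π ρ := by
    intro π hπ
    rw [chi_of hπ, ← Finset.sum_sdiff hT]
    have e1 : ∑ ρ ∈ T, s π ρ * (chi T ρ + 1) = 0 := by
      refine Finset.sum_eq_zero fun ρ hρ => ?_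
      rw [chi_of hρ]
      have h2 : (1 : ZMod 2) + 1 = 0 := by decide
      rw [h2, mul_zero]
    rw [e1, add_zero]
    refine Finset.sum_congr rfl fun ρ hρ => ?_
    rw [chi_not (Finset.mem_sdiff.1 hρ).2, zero_add, mul_one]
  have h2 : ∀ π ∈ S \ T, ∑ ρ ∈ S, s π ρ * (chi T ρ + chi T π) = ∑ ρ ∈ T, s π ρ := by
    intro π hπ
    rw [chi_not (Finset.mem_sdiff.1 hπ).2, ← Finset.sum_sdiff hT]
    have e1 : ∑ ρ ∈ S \ T, s π ρ * (chi T ρ + 0) = 0 := by
      refine Finset.sum_eq_zero fun ρ hρ => ?_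
      rw [chi_not (Finset.mem_sdiff.1 hρ).2, add_zero, mul_zero]
    rw [e1, zero_add]
    refine Finset.sum_congr rfl fun ρ hρ => ?_
    rw [chi_of hρ, add_zero, mul_one]
  constructor
  · rintro ⟨_, h⟩
    exact ⟨fun π hπ => by rw [← h1 π hπ]; exact h π (hT hπ),
      fun π hπ => by rw [← h2 π hπ]; exact h π (Finset.mem_sdiff.1 hπ).1⟩
  · rintro ⟨h3, h4⟩
    refine ⟨fun π hπ => chi_not fun h => hπ (hT h), fun π hπ => ?_⟩
    by_cases h : π ∈ T
    · rw [h1 π h]
      exact h3 π h
    · have h' : π ∈ S \ T := Finset.mem_sdiff.2 ⟨hπ, h⟩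
      rw [h2 π h']
      exact h4 π h'

theorem chi_self (S : Finset ZI) : chi S ∈ Kl S := by
  rw [chi_mem (Finset.Subset.refl S), Finset.sdiff_self]
  exact ⟨fun π _ => Finset.sum_empty, fun π hπ => absurd hπ (Finset.notMem_empty π)⟩

/-- the corank is zero if and only if the kernel has only the two constants -/
theorem bb_zero {S : Finset ZI} (hne : S.Nonempty) : bb S = 0 ↔
    ∀ x ∈ Kl S, x = 0 ∨ x = chi S := by
  have := fin_Kl S
  have h0 : chi S ≠ 0 := by
    obtain ⟨π, hπ⟩ := hne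
    intro h
    have := congrFun h π
    rw [chi_of hπ] at this
    have this' : (1 : ZMod 2) = 0 := this
    exact absurd this' (by decide)
  have hz : ∀ c : ZMod 2, c = 0 ∨ c = 1 := by decide
  have h1 : bb S = 0 ↔ Module.finrank (ZMod 2) (Kl S) ≤ 1 := by
    unfold bb
    omega
  rw [h1, finrank_le_one_iff]
  constructor
  · rintro ⟨v, hv⟩ x hx
    obtain ⟨c, hc⟩ := hv ⟨x, hx⟩
    obtain ⟨c', hc'⟩ := hv ⟨chi S, chi_self S⟩
    have e' : c' • v.1 = chi S := congrArg Subtype.val hc'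
    have e : c • v.1 = x := congrArg Subtype.val hc
    have hc1 : c' = 1 := by
      rcases hz c' with h | h
      · rw [h, zero_smul] at e'
        exact absurd e'.symm h0
      · exact h
    rw [hc1, one_smul] at e'
    rcases hz c with h | h
    · left
      rw [← e, h, zero_smul]
    · right
      rw [← e, h, one_smul, e']
  · intro h
    refine ⟨⟨chi S, chi_self S⟩, fun w => ?_⟩
    rcases h w.1 w.2 with hw | hw
    · refine ⟨0, ?_⟩
      rw [zero_smul]
      exact (Subtype.ext hw).symm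
    · refine ⟨1, ?_⟩
      rw [one_smul]
      exact (Subtype.ext hw).symm

theorem ker_iff (hP : SymP) {S : Finset ZI} (hS : ∀ π ∈ S, PP π) (hne : S.Nonempty) :
    (∀ d d' : ZI, prim d → prim d' → ∏ π ∈ S, π = d * d' → (∀ π ∈ PD d, qr π d' = 1) →
      (∀ π ∈ PD d', qr π d = 1) → d = 1 ∨ d' = 1) ↔ bb S = 0 := by
  rw [bb_zero hne]
  obtain ⟨hps, hpd⟩ := PS_prod hS
  constructor
  · intro h x hx
    set T : Finset ZI := S.filter fun π => x π = 1 with hT
    have hTS : T ⊆ S := Finset.filter_subset _ _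
    have hz : ∀ c : ZMod 2, c = 0 ∨ c = 1 := by decide
    have hxT : x = chi T := by
      funext π
      by_cases hπ : π ∈ S
      · rcases hz (x π) with h1 | h1
        · rw [h1, chi_not]
          rw [hT, Finset.mem_filter, not_and]
          intro _ h2
          rw [h1] at h2
          exact absurd h2 (by decide)
        · rw [h1, chi_of]
          rw [hT, Finset.mem_filter]
          exact ⟨hπ, h1⟩
      · rw [(mem_Kl.1 hx).1 π hπ, chi_not fun h => hπ (hTS h)]
    rw [hxT] at hx ⊢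
    obtain ⟨h1, h2⟩ := (chi_mem hTS).1 hx
    have hPT : ∀ π ∈ T, PP π := fun π hπ => hS π (hTS hπ)
    have hPT' : ∀ π ∈ S \ T, PP π := fun π hπ => hS π (Finset.mem_sdiff.1 hπ).1
    obtain ⟨a1, a2⟩ := PS_prod hPT
    obtain ⟨b1, b2⟩ := PS_prod hPT'
    have h3 := h (∏ π ∈ T, π) (∏ π ∈ S \ T, π) a1.prm b1.prm
      (by rw [mul_comm]; exact (Finset.prod_sdiff hTS).symm)
      (fun π hπ => by
        rw [a2] at hπ
        exact (hP.prod π (S \ T) (hPT π hπ) hPT' (fun h' => (Finset.mem_sdiff.1 h').2 hπ)).1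
          (h1 π hπ))
      (fun π hπ => by
        rw [b2] at hπ
        exact (hP.prod π T (hPT' π hπ) hPT (Finset.mem_sdiff.1 hπ).2).1 (h2 π hπ))
    rcases h3 with h3 | h3
    · left
      rw [h3, PD_one] at a2
      rw [← a2]
      funext π
      exact chi_not (Finset.notMem_empty π)
    · right
      rw [h3, PD_one] at b2
      have h4 : T = S := Finset.Subset.antisymm hTS (Finset.sdiff_eq_empty_iff_subset.1 b2.symm)
      rw [h4]
  · intro h d d' hd hd' hD h1 h2
    have hdp : PS d := ⟨hd, hps.sqf.squarefree_of_dvd ⟨d', hD⟩⟩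
    have hdp' : PS d' := ⟨hd', hps.sqf.squarefree_of_dvd ⟨d, by rw [hD, mul_comm]⟩⟩
    have hU : S = PD d ∪ PD d' := by
      rw [← PD_mul hdp.ne hdp'.ne, ← hD, hpd]
    have hdis : ∀ π, π ∈ PD d → π ∉ PD d' := by
      intro π h3 h4
      rw [mem_PD hdp.ne] at h3
      rw [mem_PD hdp'.ne] at h4
      have h5 : π * π ∣ ∏ π ∈ S, π := by
        rw [hD]
        exact mul_dvd_mul h3.2 h4.2
      exact h3.1.pr.not_isUnit (hps.sqf _ h5)
    have hTS : PD d ⊆ S := by
      rw [hU]
      exact Finset.subset_union_left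
    have hc : S \ PD d = PD d' := by
      ext π
      rw [Finset.mem_sdiff, hU, Finset.mem_union]
      constructor
      · rintro ⟨h3 | h3, h4⟩
        · exact absurd h3 h4
        · exact h3
      · intro h3
        exact ⟨Or.inr h3, fun h4 => hdis π h4 h3⟩
    have hP1 : ∀ π ∈ PD d, PP π := fun π hπ => ((mem_PD hdp.ne).1 hπ).1
    have hP2 : ∀ π ∈ PD d', PP π := fun π hπ => ((mem_PD hdp'.ne).1 hπ).1
    have hx : chi (PD d) ∈ Kl S := by
      rw [chi_mem hTS, hc]
      refine ⟨fun π hπ => ?_, fun π hπ => ?_⟩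
      · rw [hP.prod π (PD d') (hP1 π hπ) hP2 (hdis π hπ), hdp'.prod]
        exact h1 π hπ
      · rw [hP.prod π (PD d) (hP2 π hπ) hP1 (fun h' => hdis π h' hπ), hdp.prod]
        exact h2 π hπ
    rcases h _ hx with h3 | h3
    · left
      have h4 : PD d = ∅ := by
        rw [Finset.eq_empty_iff_forall_notMem]
        intro π hπ
        have := congrFun h3 π
        rw [chi_of hπ] at this
        have this' : (1 : ZMod 2) = 0 := this
        exact absurd this' (by decide)
      rw [← hdp.prod, h4, Finset.prod_empty]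
    · right
      have h4 : PD d' = ∅ := by
        rw [Finset.eq_empty_iff_forall_notMem]
        intro π hπ
        have h5 : π ∈ S := by
          rw [hU]
          exact Finset.mem_union_right _ hπ
        have := congrFun h3 π
        rw [chi_of h5, chi_not (fun h' => hdis π h' hπ)] at this
        exact absurd this (by decide)
      rw [← hdp'.prod, h4, Finset.prod_empty]

theorem good : S_GOOD := by
  intro hP S hS
  obtain ⟨hps, hpd⟩ := PS_prod hS
  have hne : ∀ c : ZMod 4, c ≠ 0 → ∑ π ∈ S, fc π = c → S.Nonempty := by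
    intro c hc h
    rw [Finset.nonempty_iff_ne_empty]
    rintro rfl
    rw [Finset.sum_empty] at h
    exact hc h.symm
  have hne' : (∑ π ∈ S, fc π = 1 ∨ ∑ π ∈ S, fc π = 3) → S.Nonempty := by
    rintro (h | h)
    · exact hne 1 (by decide) h
    · exact hne 3 (by decide) h
  constructor
  · constructor
    · intro h
      have h1 := (hP.five S hS).1 h.five
      exact ⟨h1, (ker_iff hP hS (hne' h1)).1 h.ker⟩
    · rintro ⟨h1, h2⟩
      exact ⟨hps, (hP.five S hS).2 h1, (ker_iff hP hS (hne' h1)).2 h2⟩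
  · constructor
    · intro h
      have h1 := (hP.thirteen S hS).1 h.nm
      exact ⟨h1, (ker_iff hP hS (hne 3 (by decide) h1)).1 h.ker⟩
    · rintro ⟨h1, h2⟩
      exact ⟨hps, (hP.thirteen S hS).2 h1, (ker_iff hP hS (hne 3 (by decide) h1)).2 h2⟩

end Pool.Agent.Q14.GN.Gd
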