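import Pool.Agent.Q155.GN.Stm

/-!
# Project GN (helper155), job GN-SYM: elementary facts on the symbol and the class of the norm
-/

set_option autoImplicit false
set_option linter.unusedVariables false

open scoped Classical

namespace Pool.Agent.Q14.GN.Sym

open Finset
open H385 (ZI nrm)
open Pool.Agent.Y699 (PP qr qr_mul qr_rec qr_cases qr_zero_iff nrm_cast)
open Q155.GN (s fc SymP)

theorem one_iff (π ρ : ZI) : s π ρ = 1 ↔ qr π ρ = -1 := by
  have h0 : (0 : ZMod 2) ≠ 1 := by decide
  unfold s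
  split_ifs with h
  · exact ⟨fun _ => h, fun _ => rfl⟩
  · exact ⟨fun h' => absurd h' h0, fun h' => absurd h' h⟩

theorem zero_iff' (π ρ : ZI) : s π ρ = 0 ↔ ¬ qr π ρ = -1 := by
  rw [← one_iff]
  have hz : ∀ a : ZMod 2, a = 0 ↔ ¬ a = 1 := by decide
  exact hz _

/-- the value of the symbol of two distinct primary primes -/
theorem qr_val {π ρ : ZI} (h1 : PP π) (h2 : PP ρ) (hne : π ≠ ρ) :
    qr π ρ = if s π ρ = 0 then 1 else -1 := by
  have h3 : qr π ρ ≠ 0 := fun h => hne (h1.eq_of_dvd h2 (qr_zero_iff.1 h))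
  by_cases h4 : qr π ρ = -1
  · have h5 : ¬ s π ρ = 0 := fun h => (zero_iff' π ρ).1 h h4
    rw [if_neg h5, h4]
  · rw [if_pos ((zero_iff' π ρ).2 h4)]
    rcases qr_cases (fun h => h3 (qr_zero_iff.2 h)) with h | h
    · exact h
    · exact absurd h h4

theorem if_mul (a b : ZMod 2) : (if a + b = 0 then (1 : ℤ) else -1) =
    (if a = 0 then (1 : ℤ) else -1) * (if b = 0 then (1 : ℤ) else -1) := by
  revert a b
  decide

theorem qr_prod {π : ZI} (h1 : PP π) (U : Finset ZI) (hU : ∀ u ∈ U, PP u) (hn : π ∉ U) :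
    qr π (∏ u ∈ U, u) = if ∑ u ∈ U, s π u = 0 then 1 else -1 := by
  induction U using Finset.induction_on with
  | empty =>
    rw [Finset.prod_empty, Finset.sum_empty, if_pos rfl]
    exact Pool.Agent.Y699.qr_one h1
  | insert a U ha ih =>
    rw [Finset.mem_insert, not_or] at hn
    rw [Finset.prod_insert ha, Finset.sum_insert ha, qr_mul h1,
      ih (fun u hu => hU u (Finset.mem_insert_of_mem hu)) hn.2,
      qr_val h1 (hU a (Finset.mem_insert_self a U)) hn.1, if_mul]

theorem nrm_mod {π : ZI} (h : PP π) : nrm π % 16 = (5 ^ (fc π).val) % 16 := by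
  have h1 : nrm π % 4 = 1 := by
    have h2 := h.norm_mod
    rw [← nrm_cast] at h2
    omega
  have v0 : (0 : ZMod 4).val = 0 := rfl
  have v1 : (1 : ZMod 4).val = 1 := rfl
  have v2 : (2 : ZMod 4).val = 2 := rfl
  have v3 : (3 : ZMod 4).val = 3 := rfl
  unfold fc
  split_ifs with h5 h9 h13
  · rw [h5, v1]
    norm_num
  · rw [h9, v2]
    norm_num
  · rw [h13, v3]
    norm_num
  · rw [v0]
    omega

theorem pow_add_mod (a b : ZMod 4) : (5 ^ (a + b).val) % 16 =
    ((5 ^ a.val) % 16) * ((5 ^ b.val) % 16) % 16 := by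
  revert a b
  decide

theorem prod_mod (S : Finset ZI) (hS : ∀ π ∈ S, PP π) :
    (∏ π ∈ S, nrm π) % 16 = (5 ^ (∑ π ∈ S, fc π).val) % 16 := by
  induction S using Finset.induction_on with
  | empty => rfl
  | insert a S ha ih =>
    rw [Finset.prod_insert ha, Finset.sum_insert ha, pow_add_mod, Nat.mul_mod,
      ih (fun u hu => hS u (Finset.mem_insert_of_mem hu)),
      nrm_mod (hS a (Finset.mem_insert_self a S))]

theorem norm_prod (S : Finset ZI) : (∏ π ∈ S, π).norm = ((∏ π ∈ S, nrm π : ℕ) : ℤ) := by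
  induction S using Finset.induction_on with
  | empty =>
    rw [Finset.prod_empty, Finset.prod_empty]
    exact Zsqrtd.norm_one
  | insert a S ha ih =>
    rw [Finset.prod_insert ha, Finset.prod_insert ha, Zsqrtd.norm_mul, ih, Nat.cast_mul, nrm_cast]

theorem val_cases (a : ZMod 4) : (a = 0 ∨ a = 1 ∨ a = 2 ∨ a = 3) := by
  revert a
  decide

theorem symP : SymP where
  symm := fun π ρ h1 h2 => by
    unfold s
    rw [qr_rec h1 h2]
  self := fun π h => by
    rw [zero_iff', qr_zero_iff.2 dvd_rfl]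
    norm_num
  one := one_iff
  zero := fun π ρ h1 h2 hne => by
    rw [qr_val h1 h2 hne]
    split_ifs with h
    · exact ⟨fun _ => rfl, fun _ => h⟩
    · exact ⟨fun h' => absurd h' h, fun h' => absurd h' (by norm_num)⟩
  prod := fun π U h1 hU hn => by
    rw [qr_prod h1 U hU hn]
    split_ifs with h
    · exact ⟨fun _ => rfl, fun _ => h⟩
    · exact ⟨fun h' => absurd h' h, fun h' => absurd h' (by norm_num)⟩
  nrm_fc := prod_mod
  five := fun S hS => by
    have h := prod_mod S hS
    rw [norm_prod]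
    have hc : (((∏ π ∈ S, nrm π : ℕ) : ℤ) % 8 = 5) ↔ (∏ π ∈ S, nrm π) % 8 = 5 := by omega
    rw [hc]
    rcases val_cases (∑ π ∈ S, fc π) with h1 | h1 | h1 | h1 <;> rw [h1] at h ⊢
    · have h2 : (∏ π ∈ S, nrm π) % 16 = 1 := h
      constructor
      · intro h3; omega
      · intro h3; exact absurd h3 (by decide)
    · have h2 : (∏ π ∈ S, nrm π) % 16 = 5 := h
      constructor
      · intro h3; exact Or.inl rfl
      · intro h3; omega
    · have h2 : (∏ π ∈ S, nrm π) % 16 = 9 := h
      constructor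
      · intro h3; omega
      · intro h3; exact absurd h3 (by decide)
    · have h2 : (∏ π ∈ S, nrm π) % 16 = 13 := h
      constructor
      · intro h3; exact Or.inr rfl
      · intro h3; omega
  thirteen := fun S hS => by
    have h := prod_mod S hS
    rw [norm_prod]
    have hc : (((∏ π ∈ S, nrm π : ℕ) : ℤ) % 16 = 13) ↔ (∏ π ∈ S, nrm π) % 16 = 13 := by omega
    rw [hc]
    rcases val_cases (∑ π ∈ S, fc π) with h1 | h1 | h1 | h1 <;> rw [h1] at h ⊢
    · have h2 : (∏ π ∈ S, nrm π) % 16 = 1 := h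
      constructor
      · intro h3; omega
      · intro h3; exact absurd h3 (by decide)
    · have h2 : (∏ π ∈ S, nrm π) % 16 = 5 := h
      constructor
      · intro h3; omega
      · intro h3; exact absurd h3 (by decide)
    · have h2 : (∏ π ∈ S, nrm π) % 16 = 9 := h
      constructor
      · intro h3; omega
      · intro h3; exact absurd h3 (by decide)
    · have h2 : (∏ π ∈ S, nrm π) % 16 = 13 := h
      constructor
      · intro h3; rfl
      · intro h3; exact h2

end Pool.Agent.Q14.GN.Sym
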