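import Pool.Agent.Q155.GN.Stm4
import Pool.Agent.Y699.Avg
import Pool.Agent.Q14.GN.GOOD
import Pool.Agent.Q14.GN.SYM

/-!
# Project GN (helper155), job GN-AV, first part: the kernel of the Laplacian as a sum over factorisations
-/

set_option autoImplicit false
set_option linter.unusedVariables false

open scoped Classical

namespace Pool.Agent.Q14.GN.Av

open Finset
open H385 (ZI nrm)
open Pool.Agent.Y699 (PP PS PD qr SB jac wt2 Ph PS_prod mem_PD mem_SB prod_half half_sign jac_sq qr_cases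
  jac_mul_right jac_rec pr_sum Ph_r Ph_ne)
open Pool.Agent.H304R2.EC.A1 (prim prim_mul prim_one)
open Q155.GN (KN S_AV Kl mem_Kl SymP s)
open Pool.Agent.Q14.GN.Gd (chi chi_of chi_not fin_Kl chi_mem)

/-- the kernel condition -/
def CondK (m : ZI) (S : Finset ZI) : Prop :=
  (∀ π ∈ S, qr π (∏ ρ ∈ PD m \ S, ρ) = 1) ∧ ∀ π ∈ PD m \ S, qr π (∏ ρ ∈ S, ρ) = 1

theorem cond_iff (hP : SymP) {m : ZI} (hm : PS m) {T : Finset ZI} (hT : T ⊆ PD m) :
    chi T ∈ Kl (PD m) ↔ CondK m T := by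
  have hPD : ∀ π ∈ PD m, PP π := fun π hπ => ((mem_PD hm.ne).1 hπ).1
  rw [chi_mem hT]
  unfold CondK
  refine and_congr ?_ ?_
  · refine forall₂_congr fun π hπ => ?_
    exact hP.prod π (PD m \ T) (hPD π (hT hπ)) (fun u hu => hPD u (mem_sdiff.1 hu).1)
      (fun h => (mem_sdiff.1 h).2 hπ)
  · refine forall₂_congr fun π hπ => ?_
    exact hP.prod π T (hPD π (mem_sdiff.1 hπ).1) (fun u hu => hPD u (hT hu))
      (mem_sdiff.1 hπ).2

theorem KN_eq (hP : SymP) {m : ZI} (hm : PS m) :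
    KN m = ((PD m).powerset.filter (CondK m)).card := by
  have := fin_Kl (PD m)
  have hz : ∀ c : ZMod 2, c = 0 ∨ c = 1 := by decide
  have h1 : Nat.card (Kl (PD m)) = KN m := by
    rw [Module.natCard_eq_pow_finrank (K := ZMod 2), Nat.card_zmod]
    rfl
  rw [← h1]
  have hchi : ∀ T : Finset ZI, T ∈ (PD m).powerset.filter (CondK m) → chi T ∈ Kl (PD m) := by
    intro T hT
    rw [mem_filter, mem_powerset] at hT
    exact (cond_iff hP hm hT.1).2 hT.2
  have h2 : Nat.card ↥((PD m).powerset.filter (CondK m)) = Nat.card (Kl (PD m)) := by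
    refine Nat.card_eq_of_bijective (fun T => (⟨chi T.1, hchi T.1 T.2⟩ : Kl (PD m))) ⟨?_, ?_⟩
    · intro T T' h
      have h3 : chi T.1 = chi T'.1 := congrArg Subtype.val h
      apply Subtype.ext
      ext π
      have h4 := congrFun h3 π
      by_cases c1 : π ∈ T.1
      · by_cases c2 : π ∈ T'.1
        · exact ⟨fun _ => c2, fun _ => c1⟩
        · rw [chi_of c1, chi_not c2] at h4
          exact absurd h4 (by decide)
      · by_cases c2 : π ∈ T'.1
        · rw [chi_not c1, chi_of c2] at h4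
          exact absurd h4 (by decide)
        · exact ⟨fun h => absurd h c1, fun h => absurd h c2⟩
    · intro x
      have hx : x.1 = chi ((PD m).filter fun π => x.1 π = 1) := by
        funext π
        by_cases c1 : π ∈ PD m
        · rcases hz (x.1 π) with h | h
          · rw [chi_not (fun h' => by
              have h6 := (mem_filter.1 h').2
              rw [h] at h6
              exact absurd h6 (by decide)), h]
          · rw [chi_of (mem_filter.2 ⟨c1, h⟩), h]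
        · rw [(mem_Kl.1 x.2).1 π c1, chi_not (fun h' => c1 (mem_filter.1 h').1)]
      refine ⟨⟨(PD m).filter fun π => x.1 π = 1, ?_⟩, ?_⟩
      · rw [mem_filter, mem_powerset]
        refine ⟨filter_subset _ _, ?_⟩
        rw [← cond_iff hP hm (filter_subset _ _), ← hx]
        exact x.2
      · exact Subtype.ext hx.symm
  rw [← h2, Nat.card_eq_fintype_card, Fintype.card_coe]

/-- the summand -/
noncomputable def G2 (a b c e : ZI) : ℝ := wt2 a * wt2 b * wt2 c * wt2 e * ((jac a e : ℝ) * jac b c)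

/-- the pointwise identity -/
theorem G2_sum {m : ZI} (hm : PS m) {S : Finset ZI} (hS : S ⊆ PD m) :
    ∑ A ∈ S.powerset, ∑ C ∈ (PD m \ S).powerset,
      G2 (∏ π ∈ A, π) (∏ π ∈ S \ A, π) (∏ π ∈ C, π) (∏ π ∈ (PD m \ S) \ C, π) =
    if CondK m S then (1 : ℝ) else 0 := by
  have hm0 := hm.ne
  have hPD : ∀ π ∈ PD m, PP π := fun π hπ => ((mem_PD hm0).1 hπ).1
  have hSP : ∀ π ∈ S, PP π := fun π hπ => hPD π (hS hπ)
  have hSP' : ∀ π ∈ PD m \ S, PP π := fun π hπ => hPD π (mem_sdiff.1 hπ).1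
  set d := ∏ π ∈ S, π with hd
  set n := ∏ π ∈ PD m \ S, π with hn
  have hdn : d * n = m := by
    rw [hd, hn, mul_comm, prod_sdiff hS]
    exact hm.prod
  obtain ⟨pd, pn⟩ := (PS_prod hSP)
  obtain ⟨pd', pn'⟩ := (PS_prod hSP')
  rw [← hd] at pd pn
  rw [← hn] at pd' pn'
  have cdn : IsCoprime d n := by
    have : PS (d * n) := by rw [hdn]; exact hm
    exact ((Pool.Agent.Y699.PS.mul_iff pd.prm pd'.prm).1 this).2.2
  have sgn : ∀ {π x : ZI}, PP π → IsCoprime π x → qr π x = 1 ∨ qr π x = -1 := by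
    intro π x hπ hx
    apply qr_cases
    intro h
    exact hπ.pr.not_isUnit (hx.isUnit_of_dvd' dvd_rfl h)
  have s1 : ∀ π ∈ S, qr π n = 1 ∨ qr π n = -1 := by
    intro π hπ
    have hπd : π ∣ d := dvd_prod_of_mem _ hπ
    exact sgn (hSP π hπ) (cdn.of_isCoprime_of_dvd_left hπd)
  have s2 : ∀ π ∈ PD m \ S, qr π d = 1 ∨ qr π d = -1 := by
    intro π hπ
    have hπd : π ∣ n := dvd_prod_of_mem _ hπ
    refine sgn (hSP' π hπ) ?_
    exact cdn.symm.of_isCoprime_of_dvd_left hπd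
  have e1 : (if CondK m S then (1 : ℝ) else 0) =
      (∏ π ∈ S, ((1 / 2 : ℝ) * qr π n + 1 / 2)) * (∏ π ∈ PD m \ S, ((1 / 2 : ℝ) * qr π d + 1 / 2)) := by
    rw [prod_congr rfl (fun π hπ => half_sign (s1 π hπ)), prod_congr rfl (fun π hπ => half_sign (s2 π hπ)),
      prod_boole, prod_boole]
    unfold CondK
    rw [← hd, ← hn]
    by_cases c1 : ∀ π ∈ S, qr π n = 1
    · by_cases c2 : ∀ π ∈ PD m \ S, qr π d = 1
      · rw [if_pos ⟨c1, c2⟩, if_pos c1, if_pos c2]; norm_num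
      · rw [if_neg (fun h => c2 h.2), if_neg c2]; norm_num
    · rw [if_neg (fun h => c1 h.1), if_neg c1]; norm_num
  rw [e1, prod_half hSP, prod_half hSP', sum_mul_sum]
  refine sum_congr rfl fun A hA => ?_
  refine sum_congr rfl fun C hC => ?_
  rw [mem_powerset] at hA hC
  have hAP : ∀ π ∈ A, PP π := fun π hπ => hSP π (hA hπ)
  have hAP' : ∀ π ∈ S \ A, PP π := fun π hπ => hSP π (mem_sdiff.1 hπ).1
  have hCP : ∀ π ∈ C, PP π := fun π hπ => hSP' π (hC hπ)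
  have hCP' : ∀ π ∈ (PD m \ S) \ C, PP π := fun π hπ => hSP' π (mem_sdiff.1 hπ).1
  obtain ⟨pa, -⟩ := PS_prod hAP
  obtain ⟨pb, -⟩ := PS_prod hAP'
  obtain ⟨pc, -⟩ := PS_prod hCP
  obtain ⟨pe, -⟩ := PS_prod hCP'
  have hab : (∏ π ∈ A, π) * (∏ π ∈ S \ A, π) = d := by rw [mul_comm, prod_sdiff hA]
  have hce : (∏ π ∈ C, π) * (∏ π ∈ (PD m \ S) \ C, π) = n := by rw [mul_comm, prod_sdiff hC]
  set a := ∏ π ∈ A, π
  set b := ∏ π ∈ S \ A, π
  set c := ∏ π ∈ C, π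
  set e := ∏ π ∈ (PD m \ S) \ C, π
  have ad : a ∣ d := ⟨b, hab.symm⟩
  have bd : b ∣ d := ⟨a, by rw [mul_comm]; exact hab.symm⟩
  have cn : c ∣ n := ⟨e, hce.symm⟩
  have cac : IsCoprime a c := (cdn.of_isCoprime_of_dvd_left ad).of_isCoprime_of_dvd_right cn
  have j1 : (jac a n : ℝ) = jac a c * jac a e := by
    rw [← hce, jac_mul_right pa.ne]
    push_cast
    ring
  have j2 : (jac c d : ℝ) = jac a c * jac b c := by
    rw [← hab, jac_mul_right pc.ne, jac_rec pc pa, jac_rec pc pb]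
    push_cast
    ring
  have q3 := jac_sq pa cac
  rw [j1, j2]
  unfold G2
  generalize (jac a c : ℝ) = x7 at *
  have : wt2 a * (x7 * (jac a e : ℝ)) * wt2 b * (wt2 c * (x7 * (jac b c : ℝ)) * wt2 e) =
      (wt2 a * wt2 b * wt2 c * wt2 e * ((jac a e : ℝ) * jac b c)) * (x7 ^ 2) := by
    ring
  rw [this, q3, mul_one]

/-- **the average as a sum over factorisations** -/
theorem K_sum (hP : SymP) (X : ℕ) :
    ∑ m ∈ SB X, Ph X m * (KN m : ℝ) =
      ∑ a ∈ SB X, ∑ b ∈ SB X, ∑ c ∈ SB X, ∑ e ∈ SB X, Ph X (a * b * c * e) * G2 a b c e := by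
  -- the sum over c, e
  have e1 : ∀ a ∈ SB X, ∀ b ∈ SB X, ∑ c ∈ SB X, ∑ e ∈ SB X, Ph X (a * b * c * e) * G2 a b c e =
      ∑ n ∈ SB X, Ph X (a * b * n) * ∑ C ∈ (PD n).powerset,
        G2 a b (∏ π ∈ C, π) (∏ π ∈ PD n \ C, π) := by
    intro a ha b hb
    rw [mem_SB] at ha hb
    have hr : prim (a * b) := prim_mul ha.2.prm hb.2.prm
    have h1 := pr_sum (X := X) (Φ := fun n => Ph X (n * (a * b))) (Ph_r hr)
      (fun c e => G2 a b c e)
    have h2 : ∀ n, n * (a * b) = a * b * n := fun n => by ring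
    have h3 : ∀ c e, a * b * (c * e) = a * b * c * e := fun c e => by ring
    simp only [h2] at h1
    rw [← h1]
    refine sum_congr rfl fun c _ => sum_congr rfl fun e _ => ?_
    rw [h3]
  rw [sum_congr rfl (fun a ha => sum_congr rfl (fun b hb => e1 a ha b hb))]
  -- move n outside
  have e2 : ∑ a ∈ SB X, ∑ b ∈ SB X, ∑ n ∈ SB X, Ph X (a * b * n) * ∑ C ∈ (PD n).powerset,
        G2 a b (∏ π ∈ C, π) (∏ π ∈ PD n \ C, π) =
      ∑ n ∈ SB X, ∑ a ∈ SB X, ∑ b ∈ SB X, Ph X (a * b * n) * ∑ C ∈ (PD n).powerset,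
        G2 a b (∏ π ∈ C, π) (∏ π ∈ PD n \ C, π) := by
    rw [sum_congr rfl (fun a _ => sum_comm), sum_comm]
  rw [e2]
  have e3 : ∀ n ∈ SB X, ∑ a ∈ SB X, ∑ b ∈ SB X, Ph X (a * b * n) * (∑ C ∈ (PD n).powerset,
        G2 a b (∏ π ∈ C, π) (∏ π ∈ PD n \ C, π)) =
      ∑ d ∈ SB X, Ph X (d * n) * ∑ A ∈ (PD d).powerset, ∑ C ∈ (PD n).powerset,
        G2 (∏ π ∈ A, π) (∏ π ∈ PD d \ A, π) (∏ π ∈ C, π) (∏ π ∈ PD n \ C, π) := by
    intro n hn
    rw [mem_SB] at hn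
    exact pr_sum (X := X) (Φ := fun d => Ph X (d * n)) (Ph_r hn.2.prm)
      (fun a b => ∑ C ∈ (PD n).powerset, G2 a b (∏ π ∈ C, π) (∏ π ∈ PD n \ C, π))
  rw [sum_congr rfl e3, sum_comm]
  have h1 := pr_sum (X := X) (Φ := fun m => Ph X m) (fun n h => ⟨(Ph_ne h).1, (Ph_ne h).2.1⟩)
      (fun d n => ∑ A ∈ (PD d).powerset, ∑ C ∈ (PD n).powerset,
        G2 (∏ π ∈ A, π) (∏ π ∈ PD d \ A, π) (∏ π ∈ C, π) (∏ π ∈ PD n \ C, π))
  rw [h1]
  refine sum_congr rfl fun m hm => ?_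
  congr 1
  have hm' := (mem_SB.1 hm).2
  rw [KN_eq hP hm', ← sum_boole]
  refine sum_congr rfl fun S hS => ?_
  rw [mem_powerset] at hS
  have hSP : ∀ π ∈ S, PP π := fun π hπ => ((mem_PD hm'.ne).1 (hS hπ)).1
  have hSP' : ∀ π ∈ PD m \ S, PP π := fun π hπ => ((mem_PD hm'.ne).1 (mem_sdiff.1 hπ).1).1
  rw [(PS_prod hSP).2, (PS_prod hSP').2]
  exact (G2_sum hm' hS).symm

end Pool.Agent.Q14.GN.Av
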