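import Pool.Agent.Q14.GN.AvA

/-!
# Project GN (helper155), job GN-AV, second part: sums over four variables
-/

set_option autoImplicit false
set_option linter.unusedVariables false

open scoped Classical

namespace Pool.Agent.Q14.GN.Av

open Finset
open H385 (ZI nrm)
open Pool.Agent.Y699 (PP PS PD qr SB jac wt2 Ph PS_prod mem_PD mem_SB jac_rec Ph_ne Ph_nonneg lg lg_pos
  blw hi lo hi_abs lo_abs hi_zero lo_nonneg abs_mul_le wt2_abs jac_abs nrm_mul hsum_SB n1 d1 n1_abs hsw hsw0 HL TB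
  lg_mono lg_sq sum_lo sum_lo_nonneg wt2_nonneg sqrt_two_lg one_le_lg)
open Pool.Agent.H304R2.EC.A1 (prim prim_mul prim_one)

/-- a sum over four variables -/
noncomputable def S4 (s : Finset ZI) (F : ZI → ZI → ZI → ZI → ℝ) : ℝ :=
  ∑ a ∈ s, ∑ b ∈ s, ∑ c ∈ s, ∑ e ∈ s, F a b c e

theorem S4_12 (s : Finset ZI) (F : ZI → ZI → ZI → ZI → ℝ) :
    S4 s F = S4 s (fun a b c e => F b a c e) := by
  unfold S4
  exact sum_comm

theorem S4_23 (s : Finset ZI) (F : ZI → ZI → ZI → ZI → ℝ) :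
    S4 s F = S4 s (fun a b c e => F a c b e) := by
  unfold S4
  exact sum_congr rfl fun _ _ => sum_comm

theorem S4_34 (s : Finset ZI) (F : ZI → ZI → ZI → ZI → ℝ) :
    S4 s F = S4 s (fun a b c e => F a b e c) := by
  unfold S4
  exact sum_congr rfl fun _ _ => sum_congr rfl fun _ _ => sum_comm

/-- the variables `a, e` in the inner sums -/
theorem S4_ae (s : Finset ZI) (F : ZI → ZI → ZI → ZI → ℝ) :
    S4 s F = S4 s (fun x1 x2 x3 x4 => F x3 x1 x2 x4) :=
  (S4_12 s F).trans (S4_23 s _)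

/-- exchange of `a` and `e` -/
theorem S4_ex (s : Finset ZI) (F : ZI → ZI → ZI → ZI → ℝ) :
    S4 s F = S4 s (fun a b c e => F e b c a) :=
  (S4_12 s F).trans ((S4_23 s _).trans ((S4_34 s _).trans ((S4_23 s _).trans (S4_12 s _))))

/-- exchange of the pairs -/
theorem S4_pr (s : Finset ZI) (F : ZI → ZI → ZI → ZI → ℝ) :
    S4 s F = S4 s (fun a b c e => F b a e c) :=
  (S4_12 s F).trans (S4_34 s _)

theorem S4_congr {s : Finset ZI} {F G : ZI → ZI → ZI → ZI → ℝ}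
    (h : ∀ a ∈ s, ∀ b ∈ s, ∀ c ∈ s, ∀ e ∈ s, F a b c e = G a b c e) : S4 s F = S4 s G := by
  unfold S4
  exact sum_congr rfl fun a ha => sum_congr rfl fun b hb => sum_congr rfl fun c hc =>
    sum_congr rfl fun e he => h a ha b hb c hc e he

theorem S4_add (s : Finset ZI) (F G : ZI → ZI → ZI → ZI → ℝ) :
    S4 s (fun a b c e => F a b c e + G a b c e) = S4 s F + S4 s G := by
  unfold S4
  simp only [sum_add_distrib]

/-- bounding with two outer variables -/
theorem S4_bound {s : Finset ZI} {F : ZI → ZI → ZI → ZI → ℝ} {K : ℝ} {g1 g2 : ZI → ℝ}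
    (h : ∀ x1 ∈ s, ∀ x2 ∈ s, |∑ x3 ∈ s, ∑ x4 ∈ s, F x1 x2 x3 x4| ≤ K * (g1 x1 * g2 x2)) :
    |S4 s F| ≤ K * ((∑ x ∈ s, g1 x) * (∑ x ∈ s, g2 x)) := by
  unfold S4
  have e : K * ((∑ x ∈ s, g1 x) * (∑ x ∈ s, g2 x)) = ∑ x1 ∈ s, ∑ x2 ∈ s, K * (g1 x1 * g2 x2) := by
    rw [sum_mul, mul_sum]
    refine sum_congr rfl fun x1 _ => ?_
    rw [mul_sum, mul_sum]
  rw [e]
  refine (abs_sum_le_sum_abs _ _).trans (sum_le_sum fun x1 h1 => ?_)
  refine (abs_sum_le_sum_abs _ _).trans (sum_le_sum fun x2 h2 => ?_)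
  exact h x1 h1 x2 h2

/-- bounding with three outer variables -/
theorem S4_bound3 {s : Finset ZI} {F : ZI → ZI → ZI → ZI → ℝ} {K : ℝ} {g1 g2 g3 : ZI → ℝ}
    (h : ∀ x1 ∈ s, ∀ x2 ∈ s, ∀ x3 ∈ s, |∑ x4 ∈ s, F x1 x2 x3 x4| ≤ K * (g1 x1 * (g2 x2 * g3 x3))) :
    |S4 s F| ≤ K * ((∑ x ∈ s, g1 x) * ((∑ x ∈ s, g2 x) * (∑ x ∈ s, g3 x))) := by
  unfold S4
  have e : K * ((∑ x ∈ s, g1 x) * ((∑ x ∈ s, g2 x) * (∑ x ∈ s, g3 x))) =
      ∑ x1 ∈ s, ∑ x2 ∈ s, ∑ x3 ∈ s, K * (g1 x1 * (g2 x2 * g3 x3)) := by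
    rw [sum_mul, mul_sum]
    refine sum_congr rfl fun x1 _ => ?_
    rw [sum_mul, mul_sum, mul_sum]
    refine sum_congr rfl fun x2 _ => ?_
    rw [mul_sum, mul_sum, mul_sum]
  rw [e]
  refine (abs_sum_le_sum_abs _ _).trans (sum_le_sum fun x1 h1 => ?_)
  refine (abs_sum_le_sum_abs _ _).trans (sum_le_sum fun x2 h2 => ?_)
  refine (abs_sum_le_sum_abs _ _).trans (sum_le_sum fun x3 h3 => ?_)
  exact h x1 h1 x2 h2 x3 h3

/-- the summand -/
noncomputable def F4 (X : ℕ) (κ : ZI → ZI → ZI → ZI → ℝ) (a b c e : ZI) : ℝ :=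
  Ph X (a * b * c * e) * (κ a b c e * (wt2 a * wt2 b * wt2 c * wt2 e * ((jac a e : ℝ) * jac b c)))

/-- the sum with the weight `κ` -/
noncomputable def T4 (X : ℕ) (κ : ZI → ZI → ZI → ZI → ℝ) : ℝ := S4 (SB X) (F4 X κ)

theorem T4_pr (X : ℕ) (κ : ZI → ZI → ZI → ZI → ℝ) : T4 X κ = T4 X (fun a b c e => κ b a e c) := by
  unfold T4
  rw [S4_pr]
  refine S4_congr fun a _ b _ c _ e _ => ?_
  unfold F4
  rw [show b * a * e * c = a * b * c * e by ring]
  ring

theorem T4_ex (X : ℕ) (κ : ZI → ZI → ZI → ZI → ℝ) : T4 X κ = T4 X (fun a b c e => κ e b c a) := by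
  unfold T4
  rw [S4_ex]
  refine S4_congr fun a ha b _ c _ e he => ?_
  unfold F4
  rw [show e * b * c * a = a * b * c * e by ring, jac_rec (mem_SB.1 he).2 (mem_SB.1 ha).2]
  ring

theorem T4_bc (X : ℕ) (κ : ZI → ZI → ZI → ZI → ℝ) : T4 X κ = T4 X (fun a b c e => κ a c b e) := by
  unfold T4
  rw [S4_23]
  refine S4_congr fun a _ b hb c hc e _ => ?_
  unfold F4
  rw [show a * c * b * e = a * b * c * e by ring, jac_rec (mem_SB.1 hc).2 (mem_SB.1 hb).2]
  ring

theorem T4_add (X : ℕ) (κ κ' : ZI → ZI → ZI → ZI → ℝ) :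
    T4 X (fun a b c e => κ a b c e + κ' a b c e) = T4 X κ + T4 X κ' := by
  unfold T4
  rw [← S4_add]
  congr 1
  funext a b c e
  unfold F4
  ring

theorem T4_congr {X : ℕ} {κ κ' : ZI → ZI → ZI → ZI → ℝ}
    (h : ∀ a ∈ SB X, ∀ b ∈ SB X, ∀ c ∈ SB X, ∀ e ∈ SB X, κ a b c e = κ' a b c e) :
    T4 X κ = T4 X κ' := by
  unfold T4
  refine S4_congr fun a ha b hb c hc e he => ?_
  unfold F4
  rw [h a ha b hb c hc e he]

/-- two linked large variables -/
theorem regA : ∃ C : ℝ, 1 ≤ C ∧ ∀ (X Z : ℕ), 1 ≤ Z → ∀ t : ZI → ZI → ℝ, (∀ b c, |t b c| ≤ 1) →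
    |T4 X (fun a b c e => hi Z a * hi Z e * t b c)| ≤
      C * (X * lg X ^ 3) * (Z : ℝ) ^ (-(1 / 96) : ℝ) := by
  obtain ⟨C, hC1, hC⟩ := blw
  refine ⟨18 ^ 2 * C, by linarith, ?_⟩
  intro X Z hZ t ht
  have hlg := lg_pos X
  unfold T4
  rw [S4_ae]
  have h := S4_bound (s := SB X) (F := fun x1 x2 x3 x4 =>
      F4 X (fun a b c e => hi Z a * hi Z e * t b c) x3 x1 x2 x4)
    (K := C * (X * lg X) * (Z : ℝ) ^ (-(1 / 96) : ℝ))
    (g1 := fun x => 1 / nrm x) (g2 := fun x => 1 / nrm x) ?_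
  · refine h.trans ?_
    have h1 := hsum_SB X
    have h0 : 0 ≤ ∑ x ∈ SB X, (1 : ℝ) / nrm x := sum_nonneg fun _ _ => by positivity
    have h2 : (∑ x ∈ SB X, (1 : ℝ) / nrm x) * (∑ x ∈ SB X, (1 : ℝ) / nrm x) ≤
        (18 * lg X) * (18 * lg X) := mul_le_mul h1 h1 h0 (h0.trans h1)
    refine (mul_le_mul_of_nonneg_left h2 (by positivity)).trans (le_of_eq (by ring))
  · intro b hb c hc
    rw [mem_SB] at hb hc
    have hr : prim (b * c) := prim_mul hb.2.prm hc.2.prm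
    have h1 := hC (fun a => hi Z a * wt2 a) (fun e => hi Z e * wt2 e)
      (fun a => abs_mul_le (hi_abs _ _) (wt2_abs _))
      (fun e => abs_mul_le (hi_abs _ _) (wt2_abs _)) Z X hZ (fun x hx => by rw [hi_zero hx, zero_mul])
      (fun x hx => by rw [hi_zero hx, zero_mul]) (b * c) hr
    have e1 : ∑ a ∈ SB X, ∑ e ∈ SB X, F4 X (fun a b c e => hi Z a * hi Z e * t b c) a b c e =
        (t b c * (wt2 b * wt2 c * jac b c)) * ∑ a ∈ SB X, ∑ e ∈ SB X,
          Ph X (a * e * (b * c)) * ((hi Z a * wt2 a) * (hi Z e * wt2 e) * jac a e) := by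
      rw [mul_sum]
      refine sum_congr rfl fun a _ => ?_
      rw [mul_sum]
      refine sum_congr rfl fun e _ => ?_
      unfold F4
      rw [show a * b * c * e = a * e * (b * c) by ring]
      ring
    rw [e1, abs_mul]
    have h2 : |t b c * (wt2 b * wt2 c * (jac b c : ℝ))| ≤ 1 :=
      abs_mul_le (ht _ _) (abs_mul_le (abs_mul_le (wt2_abs _) (wt2_abs _)) (jac_abs _ _))
    refine (mul_le_of_le_one_left (abs_nonneg _) h2).trans (h1.trans (le_of_eq ?_))
    rw [nrm_mul]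
    push_cast
    rw [one_div_mul_one_div]
    ring

/-- the main term -/
theorem main_eq {X : ℕ} (hX : 1 ≤ X) :
    T4 X (fun a b _ _ => d1 a * d1 b) = ∑ n ∈ SB X, Ph X n := by
  unfold T4 S4
  have h1 := Pool.Agent.Y699.one_mem_SB hX
  rw [sum_eq_single_of_mem 1 h1]
  · rw [sum_eq_single_of_mem 1 h1]
    · have h2 := Pool.Agent.Y699.two_free (r := 1) prim_one X
      simp only [mul_one] at h2
      rw [← h2]
      refine sum_congr rfl fun c hc => sum_congr rfl fun e _ => ?_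
      unfold F4
      beta_reduce
      rw [Pool.Agent.Y699.d1_one, Pool.Agent.Y699.wt2_one, Pool.Agent.Y699.jac_one_left,
        Pool.Agent.Y699.jac_one_left, show (1 : ZI) * 1 * c * e = c * e by ring]
      push_cast
      ring
    · intro b _ hb
      refine sum_eq_zero fun c _ => sum_eq_zero fun e _ => ?_
      unfold F4
      beta_reduce
      rw [Pool.Agent.Y699.d1_ne hb]
      ring
  · intro a _ ha
    refine sum_eq_zero fun b _ => sum_eq_zero fun c _ => sum_eq_zero fun e _ => ?_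
    unfold F4
    beta_reduce
    rw [Pool.Agent.Y699.d1_ne ha]
    ring

/-- the error term of the small regimes -/
noncomputable def EH (X Z : ℕ) : ℝ :=
  (1680 * 2 * (18 : ℝ) ^ 3) * Real.sqrt 2 * (X * lg Z ^ 3 / Real.sqrt (lg X))

theorem TB' {X Z : ℕ} (h : HL 1 X Z 2) {r : ZI} (hr : prim r) (hn : nrm r ≤ Z ^ 3) :
    ((X / nrm r : ℕ) : ℝ) / Real.sqrt (lg (X / nrm r)) ≤
      (X / Real.sqrt (lg X) * Real.sqrt 2) * (1 / nrm r) := by
  refine TB (by norm_num) h hr ?_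
  rw [one_pow, one_pow, mul_one]
  exact hn

/-- the estimate with two small variables -/
theorem two_small {X Z : ℕ} (h : HL 1 X Z 2) (hZ : 1 ≤ Z) {a b : ZI} (ha : PS a) (hb : PS b) :
    |(lo Z a * lo Z b * n1 (a * b)) * ∑ c ∈ SB X, ∑ e ∈ SB X,
        Ph X (c * e * (a * b)) * (wt2 c * wt2 e * jac a e * jac b c)| ≤
      (1680 * Real.sqrt (2 * lg Z) * (X / Real.sqrt (lg X) * Real.sqrt 2)) *
        ((lo Z a * (1 / nrm a)) * (lo Z b * (1 / nrm b))) := by
  have hlX := lg_pos X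
  have hr : prim (a * b) := prim_mul ha.prm hb.prm
  have hnn : 0 ≤ (1680 * Real.sqrt (2 * lg Z) * (X / Real.sqrt (lg X) * Real.sqrt 2)) *
        ((lo Z a * (1 / (nrm a : ℝ))) * (lo Z b * (1 / nrm b))) := by
    apply mul_nonneg (by positivity)
    exact mul_nonneg (mul_nonneg (lo_nonneg Z a) (by positivity)) (mul_nonneg (lo_nonneg Z b) (by positivity))
  by_cases c3 : nrm a ≤ Z
  swap
  · have : lo Z a = 0 := by unfold lo; rw [if_neg c3]
    rw [this]; simp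
  by_cases c4 : nrm b ≤ Z
  swap
  · have : lo Z b = 0 := by unfold lo; rw [if_neg c4]
    rw [this]; simp
  have e3 : lo Z a = 1 := by unfold lo; rw [if_pos c3]
  have e4 : lo Z b = 1 := by unfold lo; rw [if_pos c4]
  by_cases c5 : a * b = 1
  · have : n1 (a * b) = 0 := by unfold n1; rw [if_pos c5]
    rw [this]
    simp only [mul_zero, zero_mul, abs_zero]
    exact hnn
  have e5 : n1 (a * b) = 1 := by unfold n1; rw [if_neg c5]
  by_cases c6 : PS (a * b)
  swap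
  · have hz : ∑ c ∈ SB X, ∑ e ∈ SB X, Ph X (c * e * (a * b)) *
        (wt2 c * wt2 e * (jac a e : ℝ) * jac b c) = 0 := by
      refine sum_eq_zero fun c hc => sum_eq_zero fun e he => ?_
      rw [mem_SB] at hc he
      have : Ph X (c * e * (a * b)) = 0 := by
        by_contra h0
        obtain ⟨h1, -, -⟩ := Ph_ne h0
        exact c6 ((Pool.Agent.Y699.PS.mul_iff (prim_mul hc.2.prm he.2.prm) hr).1 h1).2.1
      rw [this, zero_mul]
    rw [hz]
    simp only [mul_zero, abs_zero]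
    exact hnn
  have h1 := hsw c6 ha.prm hb.prm c5 hr dvd_rfl X
  have hnab : nrm (a * b) ≤ Z ^ 2 := by
    rw [nrm_mul, sq]
    exact Nat.mul_le_mul c3 c4
  have hlg : lg (nrm (a * b)) ≤ 2 * lg Z := (lg_mono hnab).trans (lg_sq Z)
  have hsq : Real.sqrt (lg (nrm (a * b))) ≤ Real.sqrt (2 * lg Z) := Real.sqrt_le_sqrt hlg
  have hTB := TB' h hr (hnab.trans (Nat.pow_le_pow_right hZ (by norm_num)))
  have h0 : (0 : ℝ) ≤ ((X / nrm (a * b) : ℕ) : ℝ) / Real.sqrt (lg (X / nrm (a * b))) := by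
    positivity
  rw [e3, e4, e5, abs_mul]
  rw [show |(1 : ℝ) * 1 * 1| = 1 by norm_num]
  simp only [one_mul]
  refine h1.trans ?_
  calc 1680 * Real.sqrt (lg (nrm (a * b))) * (((X / nrm (a * b) : ℕ) : ℝ) /
        Real.sqrt (lg (X / nrm (a * b))))
      ≤ 1680 * Real.sqrt (2 * lg Z) * ((X / Real.sqrt (lg X) * Real.sqrt 2) * (1 / nrm (a * b))) := by
        apply mul_le_mul _ hTB h0 (by positivity)
        linarith
    _ = _ := by
        rw [nrm_mul]
        push_cast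
        rw [one_div, mul_inv]
        ring

/-- two small variables -/
theorem regC {X Z : ℕ} (h : HL 1 X Z 2) (hZ : 1 ≤ Z) :
    |T4 X (fun a b _ _ => lo Z a * lo Z b * n1 (a * b))| ≤ EH X Z := by
  have hlX := lg_pos X
  have hlZ := one_le_lg Z
  unfold T4
  have hb := S4_bound (s := SB X) (F := F4 X (fun a b _ _ => lo Z a * lo Z b * n1 (a * b)))
    (K := 1680 * Real.sqrt (2 * lg Z) * (X / Real.sqrt (lg X) * Real.sqrt 2))
    (g1 := fun x => lo Z x * (1 / nrm x)) (g2 := fun x => lo Z x * (1 / nrm x)) ?_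
  · refine hb.trans ?_
    have h1 := sum_lo Z X
    have h0 := sum_lo_nonneg Z X
    have h2 : (∑ x ∈ SB X, lo Z x * (1 / (nrm x : ℝ))) * (∑ x ∈ SB X, lo Z x * (1 / (nrm x : ℝ))) ≤
        (18 * lg Z) * (18 * lg Z) := mul_le_mul h1 h1 h0 (h0.trans h1)
    have h3 := sqrt_two_lg Z
    calc (1680 * Real.sqrt (2 * lg Z) * (X / Real.sqrt (lg X) * Real.sqrt 2)) *
          ((∑ x ∈ SB X, lo Z x * (1 / (nrm x : ℝ))) * (∑ x ∈ SB X, lo Z x * (1 / (nrm x : ℝ))))
        ≤ (1680 * (2 * lg Z) * (X / Real.sqrt (lg X) * Real.sqrt 2)) * ((18 * lg Z) * (18 * lg Z)) := by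
          gcongr
      _ = (1680 * 2 * (18 : ℝ) ^ 2) * Real.sqrt 2 * (X * lg Z ^ 3 / Real.sqrt (lg X)) := by ring
      _ ≤ EH X Z := by
          unfold EH
          have : 0 ≤ Real.sqrt 2 * (X * lg Z ^ 3 / Real.sqrt (lg X)) := by positivity
          nlinarith
  · intro a ha b hb
    rw [mem_SB] at ha hb
    have h1 := two_small (X := X) h hZ ha.2 hb.2
    have hw : |wt2 a * wt2 b| ≤ 1 := abs_mul_le (wt2_abs _) (wt2_abs _)
    have e1 : ∑ c ∈ SB X, ∑ e ∈ SB X, F4 X (fun a b _ _ => lo Z a * lo Z b * n1 (a * b)) a b c e =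
        (wt2 a * wt2 b) * ((lo Z a * lo Z b * n1 (a * b)) * ∑ c ∈ SB X, ∑ e ∈ SB X,
        Ph X (c * e * (a * b)) * (wt2 c * wt2 e * jac a e * jac b c)) := by
      rw [mul_sum, mul_sum]
      refine sum_congr rfl fun c _ => ?_
      rw [mul_sum, mul_sum]
      refine sum_congr rfl fun e _ => ?_
      unfold F4
      rw [show a * b * c * e = c * e * (a * b) by ring]
      ring
    rw [e1, abs_mul]
    exact (mul_le_of_le_one_left (abs_nonneg _) hw).trans h1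

/-- three small variables -/
theorem regD {X Z : ℕ} (h : HL 1 X Z 2) (hZ : 1 ≤ Z) {κ : ZI → ZI → ZI → ZI → ℝ}
    (hκ : ∀ a b c e, |κ a b c e| ≤ 1) :
    |T4 X (fun a b c e => lo Z a * lo Z b * lo Z c * κ a b c e)| ≤ EH X Z := by
  have hlX := lg_pos X
  have hlZ := one_le_lg Z
  unfold T4
  have hb := S4_bound3 (s := SB X) (F := F4 X (fun a b c e => lo Z a * lo Z b * lo Z c * κ a b c e))
    (K := 126 * (X / Real.sqrt (lg X) * Real.sqrt 2))
    (g1 := fun x => lo Z x * (1 / nrm x)) (g2 := fun x => lo Z x * (1 / nrm x))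
    (g3 := fun x => lo Z x * (1 / nrm x)) ?_
  · refine hb.trans ?_
    have h1 := sum_lo Z X
    have h0 := sum_lo_nonneg Z X
    have h2 : (∑ x ∈ SB X, lo Z x * (1 / (nrm x : ℝ))) * ((∑ x ∈ SB X, lo Z x * (1 / (nrm x : ℝ))) *
        (∑ x ∈ SB X, lo Z x * (1 / (nrm x : ℝ)))) ≤ (18 * lg Z) * ((18 * lg Z) * (18 * lg Z)) :=
      mul_le_mul h1 (mul_le_mul h1 h1 h0 (h0.trans h1)) (mul_nonneg h0 h0) (h0.trans h1)
    calc (126 * (X / Real.sqrt (lg X) * Real.sqrt 2)) *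
          ((∑ x ∈ SB X, lo Z x * (1 / (nrm x : ℝ))) * ((∑ x ∈ SB X, lo Z x * (1 / (nrm x : ℝ))) *
        (∑ x ∈ SB X, lo Z x * (1 / (nrm x : ℝ)))))
        ≤ (126 * (X / Real.sqrt (lg X) * Real.sqrt 2)) * ((18 * lg Z) * ((18 * lg Z) * (18 * lg Z))) := by
          gcongr
      _ = (126 * (18 : ℝ) ^ 3) * Real.sqrt 2 * (X * lg Z ^ 3 / Real.sqrt (lg X)) := by ring
      _ ≤ EH X Z := by
          unfold EH
          have : 0 ≤ Real.sqrt 2 * (X * lg Z ^ 3 / Real.sqrt (lg X)) := by positivity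
          nlinarith
  · intro a ha b hb c hc
    rw [mem_SB] at ha hb hc
    have hr : prim (a * b * c) := prim_mul (prim_mul ha.2.prm hb.2.prm) hc.2.prm
    have hstep : |∑ e ∈ SB X, F4 X (fun a b c e => lo Z a * lo Z b * lo Z c * κ a b c e) a b c e| ≤
        (lo Z a * lo Z b * lo Z c) * ∑ e ∈ SB X, Ph X (e * (a * b * c)) * wt2 e := by
      rw [mul_sum]
      refine (abs_sum_le_sum_abs _ _).trans (sum_le_sum fun e _ => ?_)
      unfold F4
      rw [show a * b * c * e = e * (a * b * c) by ring]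
      have hA : 0 ≤ (lo Z a * lo Z b * lo Z c) * (Ph X (e * (a * b * c)) * wt2 e) :=
        mul_nonneg (mul_nonneg (mul_nonneg (lo_nonneg Z a) (lo_nonneg Z b)) (lo_nonneg Z c))
          (mul_nonneg (Ph_nonneg X _) (wt2_nonneg e))
      have e1 : Ph X (e * (a * b * c)) * ((lo Z a * lo Z b * lo Z c * κ a b c e) *
            (wt2 a * wt2 b * wt2 c * wt2 e * ((jac a e : ℝ) * jac b c))) =
          ((lo Z a * lo Z b * lo Z c) * (Ph X (e * (a * b * c)) * wt2 e)) *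
          (κ a b c e * (wt2 a * wt2 b * wt2 c * ((jac a e : ℝ) * jac b c))) := by ring
      rw [e1, abs_mul, abs_of_nonneg hA]
      refine mul_le_of_le_one_right hA ?_
      exact abs_mul_le (hκ _ _ _ _) (abs_mul_le
        (abs_mul_le (abs_mul_le (wt2_abs _) (wt2_abs _)) (wt2_abs _)) (abs_mul_le (jac_abs _ _) (jac_abs _ _)))
    refine hstep.trans ?_
    by_cases c3 : nrm a ≤ Z
    swap
    · have : lo Z a = 0 := by unfold lo; rw [if_neg c3]
      rw [this]; simp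
    by_cases c4 : nrm b ≤ Z
    swap
    · have : lo Z b = 0 := by unfold lo; rw [if_neg c4]
      rw [this]; simp
    by_cases c5 : nrm c ≤ Z
    swap
    · have : lo Z c = 0 := by unfold lo; rw [if_neg c5]
      rw [this]; simp
    have e3 : lo Z a = 1 := by unfold lo; rw [if_pos c3]
    have e4 : lo Z b = 1 := by unfold lo; rw [if_pos c4]
    have e5 : lo Z c = 1 := by unfold lo; rw [if_pos c5]
    have h1 := hsw0 hr X
    have hnr : nrm (a * b * c) ≤ Z ^ 3 := by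
      rw [nrm_mul, nrm_mul]
      have : Z ^ 3 = Z * Z * Z := by ring
      rw [this]
      exact Nat.mul_le_mul (Nat.mul_le_mul c3 c4) c5
    have hTB := TB' h hr hnr
    rw [e3, e4, e5]
    simp only [one_mul]
    refine h1.trans ?_
    refine (mul_le_mul_of_nonneg_left hTB (by norm_num)).trans (le_of_eq ?_)
    rw [nrm_mul, nrm_mul]
    push_cast
    rw [one_div, mul_inv, mul_inv]
    ring

end Pool.Agent.Q14.GN.Av
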