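import Pool.Agent.Q155.GN.Stm2

/-!
# Project GN (helper155), job GN-CLS: equidistribution of the sums of random subsets modulo 4
-/

set_option autoImplicit false
set_option linter.unusedVariables false

open scoped Classical

namespace Pool.Agent.Q14.GN.Cls

open Finset
open Pool.Agent.Q1.PT (avg)
open Q155.GN (S_CLS)

theorem sum4 (g : ZMod 4 → ℝ) : ∑ c : ZMod 4, g c = g 0 + g 1 + g 2 + g 3 := by
  have h : (Finset.univ : Finset (ZMod 4)) = {0, 1, 2, 3} := by decide
  rw [h, Finset.sum_insert (by decide), Finset.sum_insert (by decide),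
    Finset.sum_pair (by decide)]
  ring

/-- the number of the subsets of `T` with class `c` -/
noncomputable def cnt {ι : Type} (f : ι → ZMod 4) (a : ZMod 4) (T : Finset ι) (c : ZMod 4) : ℝ :=
  ∑ U ∈ T.powerset, if a + ∑ i ∈ U, f i = c then (1 : ℝ) else 0

/-- the deviation -/
noncomputable def dev {ι : Type} (f : ι → ZMod 4) (a : ZMod 4) (T : Finset ι) (c : ZMod 4) : ℝ :=
  cnt f a T c / 2 ^ T.card - 1 / 4

theorem cnt_insert {ι : Type} (f : ι → ZMod 4) (a : ZMod 4) {T : Finset ι} {i : ι} (hi : i ∉ T)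
    (c : ZMod 4) : cnt f a (insert i T) c = cnt f a T c + cnt f a T (c - f i) := by
  unfold cnt
  rw [Finset.sum_powerset_insert hi]
  congr 1
  refine Finset.sum_congr rfl fun U hU => ?_
  have hiU : i ∉ U := fun h => hi (Finset.mem_powerset.1 hU h)
  rw [Finset.sum_insert hiU]
  have e : (a + (f i + ∑ j ∈ U, f j) = c) ↔ (a + ∑ j ∈ U, f j = c - f i) := by
    constructor
    · intro h
      rw [← h]
      ring
    · intro h
      have h2 : a + (f i + ∑ j ∈ U, f j) = (a + ∑ j ∈ U, f j) + f i := by ring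
      rw [h2, h]
      ring
  by_cases h : a + ∑ j ∈ U, f j = c - f i
  · rw [if_pos h, if_pos (e.2 h)]
  · rw [if_neg h, if_neg (fun h' => h (e.1 h'))]

theorem dev_insert {ι : Type} (f : ι → ZMod 4) (a : ZMod 4) {T : Finset ι} {i : ι} (hi : i ∉ T)
    (c : ZMod 4) : dev f a (insert i T) c = (dev f a T c + dev f a T (c - f i)) / 2 := by
  unfold dev
  rw [cnt_insert f a hi, Finset.card_insert_of_notMem hi, pow_succ]
  have h2 : (0 : ℝ) < 2 ^ T.card := by positivity
  field_simp
  ring

/-- the number of the odd indices -/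
noncomputable def od {ι : Type} (f : ι → ZMod 4) (T : Finset ι) : ℕ :=
  (T.filter fun i => f i = 1 ∨ f i = 3).card

theorem main {ι : Type} (f : ι → ZMod 4) (a : ZMod 4) (T : Finset ι) :
    ∑ c : ZMod 4, dev f a T c = 0 ∧ ∑ c : ZMod 4, dev f a T c ^ 2 ≤ (1 / 2) ^ od f T := by
  have m1 : (-1 : ZMod 4) = 3 := by decide
  have m2 : (0 : ZMod 4) - 1 = 3 := by decide
  have m3 : (1 : ZMod 4) - 1 = 0 := by decide
  have m4 : (2 : ZMod 4) - 1 = 1 := by decide
  have m5 : (3 : ZMod 4) - 1 = 2 := by decide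
  have n2 : (0 : ZMod 4) - 2 = 2 := by decide
  have n3 : (1 : ZMod 4) - 2 = 3 := by decide
  have n4 : (2 : ZMod 4) - 2 = 0 := by decide
  have n5 : (3 : ZMod 4) - 2 = 1 := by decide
  have l2 : (0 : ZMod 4) - 3 = 1 := by decide
  have l3 : (1 : ZMod 4) - 3 = 2 := by decide
  have l4 : (2 : ZMod 4) - 3 = 3 := by decide
  have l5 : (3 : ZMod 4) - 3 = 0 := by decide
  have hc : ∀ x : ZMod 4, x = 0 ∨ x = 1 ∨ x = 2 ∨ x = 3 := by decide
  have d01 : (0 : ZMod 4) ≠ 1 := by decide
  have d02 : (0 : ZMod 4) ≠ 2 := by decide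
  have d03 : (0 : ZMod 4) ≠ 3 := by decide
  have d12 : (1 : ZMod 4) ≠ 2 := by decide
  have d13 : (1 : ZMod 4) ≠ 3 := by decide
  have d23 : (2 : ZMod 4) ≠ 3 := by decide
  induction T using Finset.induction_on with
  | empty =>
    have h1 : ∀ c, dev f a ∅ c = (if a = c then 1 else 0) - 1 / 4 := by
      intro c
      unfold dev cnt
      rw [Finset.powerset_empty, Finset.sum_singleton, Finset.sum_empty, add_zero,
        Finset.card_empty, pow_zero, div_one]
    have h2 : od f (∅ : Finset ι) = 0 := by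
      unfold od
      rw [Finset.filter_empty, Finset.card_empty]
    rw [h2, pow_zero, sum4, sum4]
    simp only [h1]
    rcases hc a with h | h | h | h <;> rw [h]
    · rw [if_pos rfl, if_neg d01, if_neg d02, if_neg d03]
      norm_num
    · rw [if_pos rfl, if_neg d01.symm, if_neg d12, if_neg d13]
      norm_num
    · rw [if_pos rfl, if_neg d02.symm, if_neg d12.symm, if_neg d23]
      norm_num
    · rw [if_pos rfl, if_neg d03.symm, if_neg d13.symm, if_neg d23.symm]
      norm_num
  | insert i T hi ih =>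
    obtain ⟨h1, h2⟩ := ih
    rw [sum4] at h1 h2
    rw [sum4, sum4]
    simp only [dev_insert f a hi]
    set x0 := dev f a T 0
    set x1 := dev f a T 1
    set x2 := dev f a T 2
    set x3 := dev f a T 3
    have ho : od f (insert i T) = od f T + if f i = 1 ∨ f i = 3 then 1 else 0 := by
      unfold od
      rw [Finset.filter_insert]
      split_ifs with h
      · rw [Finset.card_insert_of_notMem (fun h' => hi (Finset.mem_filter.1 h').1)]
      · rw [add_zero]
    rw [ho]
    have hpos : (0 : ℝ) ≤ (1 / 2) ^ od f T := by positivity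
    have hp : (1 / 2 : ℝ) ^ (od f T + 1) = (1 / 2) ^ od f T * (1 / 2) := pow_succ _ _
    rcases hc (f i) with h | h | h | h <;> rw [h]
    · rw [if_neg (by rw [not_or]; exact ⟨d01, d03⟩), sub_zero, sub_zero, sub_zero, sub_zero, add_zero]
      constructor
      · linarith
      · refine le_trans (le_of_eq ?_) h2
        show ((x0 + x0) / 2) ^ 2 + ((x1 + x1) / 2) ^ 2 + ((x2 + x2) / 2) ^ 2 +
          ((x3 + x3) / 2) ^ 2 = _
        ring
    · rw [if_pos (Or.inl rfl), m2, m3, m4, m5]
      constructor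
      · linarith
      · show ((x0 + x3) / 2) ^ 2 + ((x1 + x0) / 2) ^ 2 + ((x2 + x1) / 2) ^ 2 +
          ((x3 + x2) / 2) ^ 2 ≤ _
        have h3 : x3 = -(x0 + x1 + x2) := by linarith
        rw [hp]
        rw [h3] at h2 ⊢
        nlinarith [sq_nonneg (x0 + x2)]
    · rw [if_neg (by rw [not_or]; exact ⟨d12.symm, d23⟩), n2, n3, n4, n5, add_zero]
      constructor
      · linarith
      · show ((x0 + x2) / 2) ^ 2 + ((x1 + x3) / 2) ^ 2 + ((x2 + x0) / 2) ^ 2 +
          ((x3 + x1) / 2) ^ 2 ≤ _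
        nlinarith [sq_nonneg (x0 - x2), sq_nonneg (x1 - x3)]
    · rw [if_pos (Or.inr rfl), l2, l3, l4, l5]
      constructor
      · linarith
      · show ((x0 + x1) / 2) ^ 2 + ((x1 + x2) / 2) ^ 2 + ((x2 + x3) / 2) ^ 2 +
          ((x3 + x0) / 2) ^ 2 ≤ _
        have h3 : x3 = -(x0 + x1 + x2) := by linarith
        rw [hp]
        rw [h3] at h2 ⊢
        nlinarith [sq_nonneg (x0 + x2)]

theorem cls : S_CLS := by
  intro ι _ f a c
  have h1 : avg (fun U : Finset ι => if a + ∑ i ∈ U, f i = c then (1 : ℝ) else 0) - 1 / 4 =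
      dev f a univ c := by
    unfold avg dev cnt
    rw [Fintype.card_finset, Finset.powerset_univ, Finset.card_univ]
    push_cast
    rfl
  rw [h1]
  obtain ⟨h2, h3⟩ := main f a (univ : Finset ι)
  have h4 : dev f a univ c ^ 2 ≤ (1 / 2) ^ od f univ := by
    refine le_trans ?_ h3
    exact Finset.single_le_sum (f := fun c => dev f a univ c ^ 2) (fun c _ => sq_nonneg _)
      (Finset.mem_univ c)
  have h5 : ((1 / 2 : ℝ)) ^ od f univ ≤ ((3 / 4) ^ od f univ) ^ 2 := by
    rw [← pow_mul, mul_comm, pow_mul]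
    exact pow_le_pow_left₀ (by norm_num) (by norm_num) _
  exact abs_le_of_sq_le_sq (h4.trans h5) (by positivity)

end Pool.Agent.Q14.GN.Cls
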