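import Pool.Agent.Q155.GN.Stm2

/-!
# Project GN (helper155), job GN-NS: from sets of primes to squarefree primary elements
-/

set_option autoImplicit false
set_option linter.unusedVariables false

open scoped Classical

namespace Pool.Agent.Q14.GN.Ns

open Finset
open H385 (ZI nrm)
open Pool.Agent.Y699 (PP PS PD SB QB mem_SB mem_QB PS_prod mem_PD nrm_prod norm_le_of_dvd)
open Q155.GN (SS S_NS)

theorem mem_SS {X : ℕ} {S : Finset ZI} : S ∈ SS X ↔ (∀ π ∈ S, PP π) ∧ nrm (∏ π ∈ S, π) ≤ X := by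
  unfold SS
  rw [Finset.mem_filter, Finset.mem_powerset, nrm_prod]
  constructor
  · rintro ⟨h1, h2⟩
    exact ⟨fun π hπ => (mem_QB.1 (h1 hπ)).2, h2⟩
  · rintro ⟨h1, h2⟩
    refine ⟨fun π hπ => mem_QB.2 ⟨?_, h1 π hπ⟩, h2⟩
    have h3 : π ∣ ∏ π ∈ S, π := Finset.dvd_prod_of_mem _ hπ
    have h4 := norm_le_of_dvd (PS_prod h1).1.ne h3
    have h5 : nrm π ≤ nrm (∏ π ∈ S, π) := h4
    rw [nrm_prod] at h5
    exact h5.trans h2

theorem ns : S_NS := by
  intro X P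
  refine Finset.card_bij (fun S _ => ∏ π ∈ S, π) ?_ ?_ ?_
  · intro S hS
    rw [Finset.mem_filter, mem_SS] at hS
    rw [Finset.mem_filter, mem_SB]
    exact ⟨⟨hS.1.2, (PS_prod hS.1.1).1⟩, hS.2⟩
  · intro S hS S' hS' h
    rw [Finset.mem_filter, mem_SS] at hS hS'
    rw [← (PS_prod hS.1.1).2, ← (PS_prod hS'.1.1).2]
    exact congrArg PD h
  · intro D hD
    rw [Finset.mem_filter, mem_SB] at hD
    obtain ⟨⟨h1, h2⟩, h3⟩ := hD
    refine ⟨PD D, ?_, h2.prod⟩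
    rw [Finset.mem_filter, mem_SS, h2.prod]
    exact ⟨⟨fun π hπ => ((mem_PD h2.ne).1 hπ).1, h1⟩, h3⟩

end Pool.Agent.Q14.GN.Ns
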